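import Pool.Agent.H40.ISH.Stmts

/-!
Project ISH, module KOM: the finite contours.
-/

set_option linter.unusedVariables false

namespace Pool.ISH

open MeasureTheory Filter Topology
open scoped Classical Pointwise

namespace H22

theorem Rch_restrict {S T : Set Bond} {b c : Bond} (h : Rch S b c) (hb : b ∈ T)
    (hT : ∀ b ∈ T, ∀ c ∈ S, Tch b c → c ∈ T) : c ∈ T ∧ Rch T b c := by
  induction h with
  | refl => exact ⟨hb, Relation.ReflTransGen.refl⟩
  | @tail d e h1 h2 ih =>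
    have he := hT d ih.1 e h2.2 h2.1
    exact ⟨he, Relation.ReflTransGen.tail ih.2 ⟨h2.1, he⟩⟩

theorem Rch_step {S : Set Bond} {b c d : Bond} (h : Rch S b c) (h1 : Tch c d) (h2 : d ∈ S) :
    Rch S b d := Relation.ReflTransGen.tail h ⟨h1, h2⟩

/-- broken bonds outside of the box are vertical bonds at height `0` -/
theorem out_bond {N : ℕ} {A : Finset Site} {b : Bond} (hb : b ∈ bd (Pl N A)) (hV : b ∉ BV N) :
    b.2 = 2 ∧ b.1 2 = 0 ∧ (lo b 2 ≤ 0 ∧ ¬ hi b 2 ≤ 0) ∧ lo b ∉ Vb N ∧ hi b ∉ Vb N := by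
  rw [mem_BV, not_or] at hV
  rw [mem_bd] at hb
  have h1 : lo b ∈ Pl N A ↔ lo b 2 ≤ 0 := by
    simp only [Pl, Set.mem_ofPred_eq]
    have := hV.1
    tauto
  have h2 : hi b ∈ Pl N A ↔ hi b 2 ≤ 0 := by
    simp only [Pl, Set.mem_ofPred_eq]
    have := hV.2
    tauto
  rw [h1, h2] at hb
  have h3 : b.2 = 2 := by
    by_contra h
    have : hi b 2 = lo b 2 := hi_ne (fun e => h e.symm)
    rw [this] at hb
    exact hb Iff.rfl
  have h4 : hi b 2 = lo b 2 + 1 := by
    have := hi_same b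
    rw [h3] at this
    exact this
  rw [h4] at hb
  have h5 : lo b 2 = 0 := by
    by_contra h
    apply hb
    constructor <;> intro h' <;> omega
  refine ⟨h3, h5, ⟨by omega, by rw [h4]; omega⟩, hV.1, hV.2⟩

theorem Gam_iff {N : ℕ} {A : Finset Site} {b : Bond} :
    b ∈ Gam N A ↔ Rch (bd (Pl N A)) (rt N) b := Iff.rfl

theorem in_BV (hG : GAMStmt) {N : ℕ} {A : Finset Site} {b : Bond} (hb : b ∈ bd (Pl N A))
    (hn : b ∉ Gam N A) : b ∈ BV N := by
  by_contra hV
  obtain ⟨h1, h2, ⟨h3, h4⟩, h5, h6⟩ := out_bond hb hV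
  obtain ⟨g1, g2, g3, g4⟩ := hG N A
  apply hn
  rw [← g2, mem_bd, g3 _ h5, g3 _ h6]
  intro h
  exact h4 (h.1 h3)

end H22

open H22 in
theorem kom (hG : GAMStmt) : KOMStmt := by
  intro N A
  have hmem : ∀ γ ∈ Ks N A, γ ⊆ BV N ∧ ∃ b ∈ bd (Pl N A), b ∉ Gam N A ∧
      (γ : Set Bond) = {c | Rch (bd (Pl N A)) b c} := by
    intro γ hγ
    obtain ⟨h1, h2⟩ := Finset.mem_filter.1 hγ
    exact ⟨Finset.mem_powerset.1 h1, h2⟩
  refine ⟨?_, ?_, ?_⟩
  · intro γ hγ
    obtain ⟨h1, b, hb, hbG, he⟩ := hmem γ hγ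
    have hm : ∀ c, c ∈ γ ↔ Rch (bd (Pl N A)) b c := by
      intro c
      have : c ∈ (γ : Set Bond) ↔ c ∈ {c | Rch (bd (Pl N A)) b c} := by rw [he]
      exact this
    have hcl : ∀ b' ∈ γ, ∀ c ∈ bd (Pl N A), Tch b' c → c ∈ γ := by
      intro b' hb' c hc ht
      rw [hm] at hb' ⊢
      exact Rch_step hb' ht hc
    refine ⟨h1, ⟨b, (hm b).2 Relation.ReflTransGen.refl⟩, ?_, ?_, hcl, ?_⟩
    · intro c hc
      exact Rch.mem ((hm c).1 hc) hb
    · intro c hc hcG
      apply hbG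
      rw [Gam_iff] at *
      exact hcG.trans (((hm c).1 hc).symm hb)
    · intro c hc d hd
      have h2 : Rch (bd (Pl N A)) c d := (((hm c).1 hc).symm hb).trans ((hm d).1 hd)
      exact (Rch_restrict h2 hc hcl).2
  · intro γ hγ γ' hγ' hne
    obtain ⟨h1, b, hb, hbG, he⟩ := hmem γ hγ
    obtain ⟨h1', b', hb', hbG', he'⟩ := hmem γ' hγ'
    rw [Finset.disjoint_left]
    intro c hc hc'
    apply hne
    have k1 : Rch (bd (Pl N A)) b c := by
      have : c ∈ (γ : Set Bond) := hc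
      rw [he] at this
      exact this
    have k2 : Rch (bd (Pl N A)) b' c := by
      have : c ∈ (γ' : Set Bond) := hc'
      rw [he'] at this
      exact this
    have k3 : (γ : Set Bond) = (γ' : Set Bond) := by
      rw [he, he']
      ext d
      constructor
      · intro hd
        exact k2.trans ((k1.symm hb).trans hd)
      · intro hd
        exact k1.trans ((k2.symm hb').trans hd)
    exact_mod_cast k3
  · intro b hb hbG
    have hall : ∀ c, Rch (bd (Pl N A)) b c → c ∈ BV N := by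
      intro c hc
      refine in_BV hG (hc.mem hb) ?_
      intro hcG
      apply hbG
      rw [Gam_iff] at *
      exact hcG.trans (hc.symm hb)
    refine ⟨(BV N).filter (fun c => Rch (bd (Pl N A)) b c), ?_, ?_⟩
    · refine Finset.mem_filter.2 ⟨Finset.mem_powerset.2 (Finset.filter_subset _ _), b, hb, hbG, ?_⟩
      ext c
      simp only [Finset.coe_filter, Set.mem_ofPred_eq]
      exact ⟨fun h => h.2, fun h => ⟨hall c h, h⟩⟩
    · exact Finset.mem_filter.2 ⟨hall b Relation.ReflTransGen.refl, Relation.ReflTransGen.refl⟩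

end Pool.ISH
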