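import Pool.Agent.H40.ISH.Stmts
import Pool.Agent.H22.ISH.KOM

/-!
Project ISH, module LAM: elementary properties of `Lam`.
-/

set_option linter.unusedVariables false

namespace Pool.ISH

open MeasureTheory Filter Topology
open scoped Classical Pointwise

namespace H22

theorem rt_bd (N : ℕ) (A : Finset Site) : rt N ∈ bd (Pl N A) ∧ rt N ∉ BV N := by
  have h1 : lo (rt N) ∉ Vb N := by
    rw [mem_Vb]
    intro h
    have h0 := h 0
    simp only [lo, rt, Matrix.cons_val_zero] at h0
    rw [abs_le] at h0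
    omega
  have h2 : hi (rt N) ∉ Vb N := by
    rw [mem_Vb]
    intro h
    have h0 := h 0
    rw [hi_ne (by simp [rt])] at h0
    simp only [lo, rt, Matrix.cons_val_zero] at h0
    rw [abs_le] at h0
    omega
  have h3 : lo (rt N) 2 = 0 := by simp [lo, rt]
  have h4 : hi (rt N) 2 = 1 := by
    have := hi_same (rt N)
    have h5 : (rt N).2 = 2 := rfl
    rw [h5, h3] at this
    simpa using this
  refine ⟨?_, ?_⟩
  · rw [mem_bd]
    intro h
    have h5 : lo (rt N) ∈ Pl N A := Or.inr ⟨h1, by rw [h3]⟩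
    rcases h.1 h5 with h6 | h6
    · exact h2 h6.1
    · have := h6.2
      omega
  · rw [mem_BV]
    rintro (h | h)
    · exact h1 h
    · exact h2 h

theorem lam_card (hK : KOMStmt) (N : ℕ) (A : Finset Site) : (Lam N A).card = lg N A := by
  obtain ⟨k1, k2, k3⟩ := hK N A
  unfold Lam lg
  rw [Finset.card_union_of_disjoint, Finset.card_biUnion]
  · rfl
  · intro γ hγ γ' hγ' hne
    exact k2 γ (Finset.mem_filter.1 hγ).1 γ' (Finset.mem_filter.1 hγ').1 hne
  · rw [Finset.disjoint_left]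
    intro b hb hb'
    rw [Finset.mem_biUnion] at hb'
    obtain ⟨γ, hγ, hbγ⟩ := hb'
    exact (k1 γ (Finset.mem_filter.1 hγ).1).2.2.2.1 b hbγ (Finset.mem_filter.1 hb).2

theorem lam_sub (N : ℕ) (A : Finset Site) : Lam N A ⊆ BV N := by
  intro b hb
  rcases Finset.mem_union.1 hb with hb | hb
  · exact (Finset.mem_filter.1 hb).1
  · rw [Finset.mem_biUnion] at hb
    obtain ⟨γ, hγ, hbγ⟩ := hb
    have := (Finset.mem_filter.1 (Finset.mem_filter.1 hγ).1).1
    exact Finset.mem_powerset.1 this hbγ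

end H22

open H22 in
theorem lam (hK : KOMStmt) : LAMStmt := by
  intro N A hN
  refine ⟨lam_sub N A, lam_card hK N A, ?_⟩
  obtain ⟨k1, k2, k3⟩ := hK N A
  intro b hb
  rcases Finset.mem_union.1 hb with hb' | hb'
  · left
    obtain ⟨hbV, hbG⟩ := Finset.mem_filter.1 hb'
    rw [Gam_iff] at hbG
    have key : ∀ e, Rch (bd (Pl N A)) (rt N) e → e ∈ BV N →
        ∃ c ∈ Lam N A, c ∈ NR N ∧ Rch (Lam N A : Set Bond) c e := by
      intro e he
      induction he with
      | refl => exact fun h => absurd h (rt_bd N A).2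
      | @tail d e h1 h2 ih =>
        intro heV
        have heG : e ∈ Gam N A := Rch_step h1 h2.1 h2.2
        have heL : e ∈ Lam N A := Finset.mem_union.2 (Or.inl (Finset.mem_filter.2 ⟨heV, heG⟩))
        by_cases hd : d ∈ BV N
        · obtain ⟨c, hc1, hc2, hc3⟩ := ih hd
          exact ⟨c, hc1, hc2, Rch_step hc3 h2.1 heL⟩
        · have hdb : d ∈ bd (Pl N A) := Rch.mem h1 (rt_bd N A).1
          obtain ⟨g1, g2, -⟩ := out_bond hdb hd
          refine ⟨e, heL, ?_, Relation.ReflTransGen.refl⟩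
          exact Finset.mem_filter.2 ⟨heV, d, hd, g1, g2, h2.1⟩
    exact key b hbG hbV
  · right
    rw [Finset.mem_biUnion] at hb'
    obtain ⟨γ, hγ, hbγ⟩ := hb'
    obtain ⟨hγ1, hγ2⟩ := Finset.mem_filter.1 hγ
    have hsub : γ ⊆ Lam N A := by
      intro c hc
      exact Finset.mem_union.2 (Or.inr (Finset.mem_biUnion.2 ⟨γ, hγ, hc⟩))
    refine hγ2.trans (Finset.card_le_card ?_)
    intro c hc
    refine Finset.mem_filter.2 ⟨hsub hc, ?_⟩
    exact Rch.mono (by exact_mod_cast hsub) ((k1 γ hγ1).2.2.2.2.2 b hbγ c hc)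

end Pool.ISH
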