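import Pool.Agent.H40.ISH.Stmts
import Pool.Agent.H22.ISH.LAM

/-!
Project ISH, module FLT: flattening the interface and removing the large contours.
-/

set_option linter.unusedVariables false

namespace Pool.ISH

open MeasureTheory Filter Topology
open scoped Classical Pointwise

namespace H22

theorem pr1 {X Y Z W : Prop} (h2 : X ↔ (Z ∧ ¬ W) ∨ (W ∧ ¬ Z)) (h3 : X → Y) :
    X ↔ ((Y ∧ Z) ∧ ¬ (Y ∧ W)) ∨ ((Y ∧ W) ∧ ¬ (Y ∧ Z)) := by
  tauto

theorem pr2 {g p u : Prop} (h : g → ¬ u) :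
    (((g ∧ ¬ p) ∨ (p ∧ ¬ g)) ∧ ¬ u) ∨ (u ∧ ¬ ((g ∧ ¬ p) ∨ (p ∧ ¬ g))) ↔
      ((g ∨ u) ∧ ¬ p) ∨ (p ∧ ¬ (g ∨ u)) := by
  tauto

theorem pr3 {k g : Prop} (h : k → ¬ g) : (k ∧ ¬ g) ∨ (g ∧ ¬ k) ↔ g ∨ k := by
  tauto

/-- the lower half space -/
def HS : Set Site := {x | x 2 ≤ 0}

/-- the vertical bonds at height `0` in the columns of the box -/
noncomputable def P0 (N : ℕ) : Finset Bond := (BV N).filter (fun b => b ∈ bd HS)

theorem mem_bd_HS {b : Bond} : b ∈ bd HS ↔ b.2 = 2 ∧ b.1 2 = 0 := by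
  rw [mem_bd]
  simp only [HS, Set.mem_ofPred_eq]
  by_cases h : b.2 = 2
  · have h4 : hi b 2 = lo b 2 + 1 := by
      have := hi_same b
      rw [h] at this
      exact this
    rw [h4]
    have : lo b 2 = b.1 2 := rfl
    rw [← this]
    constructor
    · intro h'
      refine ⟨h, ?_⟩
      by_contra h5
      apply h'
      constructor <;> intro h' <;> omega
    · rintro ⟨-, h5⟩ h6
      rw [h5] at h6
      omega
  · have : hi b 2 = lo b 2 := hi_ne (fun e => h e.symm)
    rw [this]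
    simp [h]

theorem card_P0 (N : ℕ) : (P0 N).card ≤ (2 * N + 1) ^ 2 := by
  have h : P0 N ⊆ ((Finset.Icc (-(N : ℤ)) N) ×ˢ (Finset.Icc (-(N : ℤ)) N)).image
      (fun p : ℤ × ℤ => ((![p.1, p.2, 0], 2) : Bond)) := by
    intro b hb
    obtain ⟨h1, h2⟩ := Finset.mem_filter.1 hb
    obtain ⟨h3, h4⟩ := mem_bd_HS.1 h2
    rw [mem_BV] at h1
    have key : |lo b 0| ≤ (N : ℤ) ∧ |lo b 1| ≤ (N : ℤ) := by
      rcases h1 with h1 | h1
      · rw [mem_Vb] at h1
        exact ⟨h1 0, h1 1⟩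
      · rw [mem_Vb] at h1
        have e0 : hi b 0 = lo b 0 := hi_ne (by rw [h3]; decide)
        have e1 : hi b 1 = lo b 1 := hi_ne (by rw [h3]; decide)
        refine ⟨?_, ?_⟩
        · rw [← e0]
          exact h1 0
        · rw [← e1]
          exact h1 1
    rw [Finset.mem_image]
    refine ⟨(lo b 0, lo b 1), ?_, ?_⟩
    · rw [Finset.mem_product, Finset.mem_Icc, Finset.mem_Icc]
      rw [abs_le, abs_le] at key
      exact key
    · obtain ⟨x, i⟩ := b
      simp only at h3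
      subst h3
      simp only at h4
      refine Prod.ext ?_ rfl
      funext i
      fin_cases i
      · rfl
      · rfl
      · exact h4.symm
  refine (Finset.card_le_card h).trans (Finset.card_image_le.trans ?_)
  rw [Finset.card_product, Int.card_Icc]
  have : ((N : ℤ) + 1 - -(N : ℤ)).toNat = 2 * N + 1 := by omega
  rw [this, sq]

/-- a set of sites in the box whose boundary is the union of some contours -/
theorem contours_set (hK : KOMStmt) (hI : INTStmt) (hS : SQEStmt) (N : ℕ) (A : Finset Site)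
    (K : Finset (Finset Bond)) : K ⊆ Ks N A → ∃ F : Finset Site, F ⊆ Vb N ∧
      bd (F : Set Site) = ((K.biUnion id : Finset Bond) : Set Bond) := by
  obtain ⟨k1, k2, k3⟩ := hK N A
  induction K using Finset.induction_on with
  | empty =>
    intro _
    exact ⟨∅, Finset.empty_subset _, by simp [bd_empty]⟩
  | @insert γ K hγK ih =>
    intro hsub
    have hγ : γ ∈ Ks N A := hsub (Finset.mem_insert_self _ _)
    have hK' : K ⊆ Ks N A := fun x hx => hsub (Finset.mem_insert_of_mem hx)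
    obtain ⟨F, hF1, hF2⟩ := ih hK'
    obtain ⟨q1, q2, q3, q4, q5, q6⟩ := k1 γ hγ
    obtain ⟨I, hI1, hI2, -⟩ := hI N γ q1 (hS _ _ q3 q5) q6
    refine ⟨symmDiff F I, symmDiff_subset_Vb hF1 hI1, ?_⟩
    rw [Finset.coe_symmDiff, bd_symmDiff, hF2, hI2, Finset.biUnion_insert]
    have hd : Disjoint (K.biUnion id) γ := by
      rw [Finset.disjoint_left]
      intro b hb hb'
      rw [Finset.mem_biUnion] at hb
      obtain ⟨γ', h1, h2⟩ := hb
      have hne : γ' ≠ γ := by
        rintro rfl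
        exact hγK h1
      exact Finset.disjoint_left.1 (k2 γ' (hK' h1) γ hγ hne) h2 hb'
    rw [← Finset.coe_symmDiff]
    congr 1
    ext b
    rw [Finset.mem_symmDiff, Finset.mem_union]
    have hdb : b ∈ K.biUnion id → b ∉ γ := fun h => Finset.disjoint_left.1 hd h
    simp only [id]
    exact pr3 hdb

theorem lam_disj (hK : KOMStmt) (N : ℕ) (A : Finset Site) :
    Disjoint ((BV N).filter (fun b => b ∈ Gam N A))
      (((Ks N A).filter (fun γ => Lg N ≤ γ.card)).biUnion id) := by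
  obtain ⟨k1, k2, k3⟩ := hK N A
  rw [Finset.disjoint_left]
  intro b hb hb'
  rw [Finset.mem_biUnion] at hb'
  obtain ⟨γ, hγ, hbγ⟩ := hb'
  have h1 := (Finset.mem_filter.1 hγ).1
  have h2 := (Finset.mem_filter.1 hb).2
  exact (k1 γ h1).2.2.2.1 b hbγ h2

/-- the set which is flipped -/
theorem flat_set (hG : GAMStmt) (hK : KOMStmt) (hI : INTStmt) (hS : SQEStmt) (N : ℕ)
    (A : Finset Site) : ∃ F : Finset Site, F ⊆ Vb N ∧
      bd (F : Set Site) = ((symmDiff (Lam N A) (P0 N) : Finset Bond) : Set Bond) := by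
  obtain ⟨g1, g2, g3, g4⟩ := hG N A
  obtain ⟨k1, k2, k3⟩ := hK N A
  obtain ⟨F1, hF1, hF1'⟩ := contours_set hK hI hS N A
    ((Ks N A).filter (fun γ => Lg N ≤ γ.card)) (Finset.filter_subset _ _)
  set F0 : Finset Site := (Vb N).filter (fun x => x ∈ symmDiff (Dp N A) HS) with hF0
  have hF0' : (F0 : Set Site) = symmDiff (Dp N A) HS := by
    ext x
    rw [hF0]
    simp only [Finset.coe_filter, Set.mem_ofPred_eq]
    constructor
    · exact fun h => h.2
    · intro h
      refine ⟨?_, h⟩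
      by_contra hx
      have := g3 x hx
      rw [Set.mem_symmDiff] at h
      simp only [HS, Set.mem_ofPred_eq] at h
      tauto
  have hF0V : F0 ⊆ Vb N := Finset.filter_subset _ _
  have hb0 : bd (F0 : Set Site) =
      ((symmDiff ((BV N).filter (fun b => b ∈ Gam N A)) (P0 N) : Finset Bond) : Set Bond) := by
    have h1 := bd_subset_BV hF0V
    ext b
    have h2 : b ∈ bd (F0 : Set Site) ↔ b ∈ symmDiff (Gam N A) (bd HS) := by
      rw [hF0', bd_symmDiff, g2]
    rw [Finset.mem_coe, Finset.mem_symmDiff]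
    simp only [P0, Finset.mem_filter]
    have h3 : b ∈ bd (F0 : Set Site) → b ∈ BV N := fun h => h1 h
    rw [Set.mem_symmDiff] at h2
    exact pr1 h2 h3
  refine ⟨symmDiff F0 F1, symmDiff_subset_Vb hF0V hF1, ?_⟩
  rw [Finset.coe_symmDiff, bd_symmDiff, hb0, hF1', ← Finset.coe_symmDiff]
  congr 1
  have hd := lam_disj hK N A
  ext b
  have h4 : b ∈ (BV N).filter (fun b => b ∈ Gam N A) →
      b ∉ ((Ks N A).filter (fun γ => Lg N ≤ γ.card)).biUnion id :=
    fun h => Finset.disjoint_left.1 hd h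
  unfold Lam
  rw [Finset.mem_symmDiff, Finset.mem_symmDiff, Finset.mem_symmDiff, Finset.mem_union]
  exact pr2 h4

theorem lam_bd (hK : KOMStmt) (hG : GAMStmt) (N : ℕ) (A : Finset Site) :
    ∀ b ∈ Lam N A, b ∈ bd (Pl N A) := by
  obtain ⟨g1, g2, g3, g4⟩ := hG N A
  obtain ⟨k1, k2, k3⟩ := hK N A
  intro b hb
  rcases Finset.mem_union.1 hb with hb | hb
  · exact g1 (Finset.mem_filter.1 hb).2
  · rw [Finset.mem_biUnion] at hb
    obtain ⟨γ, hγ, hbγ⟩ := hb
    exact (k1 γ (Finset.mem_filter.1 hγ).1).2.2.1 hbγ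

end H22

open H22 in
theorem flt (hG : GAMStmt) (hK : KOMStmt) (hI : INTStmt) (hS : SQEStmt) : FLTStmt := by
  intro N
  refine ⟨fun L => if h : ∃ F : Finset Site, F ⊆ Vb N ∧
    bd (F : Set Site) = ((symmDiff L (P0 N) : Finset Bond) : Set Bond) then h.choose else ∅, ?_⟩
  intro A hA
  have hex := flat_set hG hK hI hS N A
  simp only [dif_pos hex]
  obtain ⟨h1, h2⟩ := hex.choose_spec
  set F := hex.choose with hF
  refine ⟨h1, ?_⟩
  have h3 := en_flip (A := A) h1
  rw [← lam_card hK N A]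
  set L := Lam N A with hL
  have hLV : L ⊆ BV N := lam_sub N A
  have hLb : ∀ b ∈ L, b ∈ bd (Pl N A) := lam_bd hK hG N A
  have hm : ∀ b, b ∈ bd (F : Set Site) ↔ b ∈ symmDiff L (P0 N) := by
    intro b
    rw [h2]
    exact Iff.rfl
  have c1 : (L \ P0 N).card ≤
      ((BV N).filter (fun b => b ∈ bd (F : Set Site) ∧ b ∈ bd (Pl N A))).card := by
    refine Finset.card_le_card ?_
    intro b hb
    obtain ⟨q1, q2⟩ := Finset.mem_sdiff.1 hb
    refine Finset.mem_filter.2 ⟨hLV q1, ?_, hLb b q1⟩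
    rw [hm, Finset.mem_symmDiff]
    exact Or.inl ⟨q1, q2⟩
  have c2 : ((BV N).filter (fun b => b ∈ bd (F : Set Site) ∧ b ∉ bd (Pl N A))).card ≤
      (P0 N \ L).card := by
    refine Finset.card_le_card ?_
    intro b hb
    obtain ⟨q1, q2, q3⟩ := Finset.mem_filter.1 hb
    rw [hm, Finset.mem_symmDiff] at q2
    rw [Finset.mem_sdiff]
    rcases q2 with q2 | q2
    · exact absurd (hLb b q2.1) q3
    · exact q2
  have c3 := Finset.card_sdiff_add_card_inter L (P0 N)
  have c4 := Finset.card_sdiff_add_card_inter (P0 N) L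
  rw [Finset.inter_comm] at c4
  have c5 := card_P0 N
  omega

end Pool.ISH
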